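import Pool.Agent.W606.SN.Stm

set_option autoImplicit false

namespace Pool.Agent.W683.SN

open Pool.Agent.W606.SN

theorem sec_restrict {F T : Type} [Fintype F] {GF : SimpleGraph F} {GT : SimpleGraph T}
    {W1 W2 : Set T} {A B : F × T → Prop} (hW : W2 ⊆ W1)
    (hAB : ∀ v ∈ W2, ∀ u, (A (u, v) ↔ B (u, v))) (h : HasSec GF GT W1 A) :
    HasSec GF GT W2 B := by
  obtain ⟨z, hz⟩ := h
  refine ⟨z, ⟨fun v hv u hu => ?_, fun v hv => hz.one v (hW hv), fun v hv v' hv' hadj φ hφ => ?_⟩⟩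
  · exact hz.supp v (hW hv) u (fun hA => hu ((hAB v hv u).1 hA))
  · refine hz.comp v (hW hv) v' (hW hv') hadj φ (fun p q hp hq hr hAp hAq => ?_)
    have key : ∀ r : F × T, (r.2 = v ∨ r.2 = v') → A r → B r := by
      rintro ⟨a, c⟩ hr hA
      rcases hr with hr | hr
      · simp only at hr; subst hr; exact (hAB _ hv a).1 hA
      · simp only at hr; subst hr; exact (hAB _ hv' a).1 hA
    exact hφ p q hp hq hr (key p hp hAp) (key q hq hAq)

theorem sub_self {F T : Type} (GF : SimpleGraph F) (GT : SimpleGraph T) (W : Set T)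
    (L : F × T → Prop) : Sub GF GT W L L :=
  fun _ _ _ _ _ hp hq => ⟨fun _ => hq, fun _ => hp⟩

theorem main : S_CRIT := by
  intro hHEX F T _ _ GF GT M f hf hGF hGT h1 h2 h3 h4 h5 h6
  have step1 : ∀ s : ℕ, ¬ (HasSec GT GF Set.univ (fun p : T × F => f (p.2, p.1) < s) ∧
      HasSec GT GF Set.univ (fun p : T × F => ¬ f (p.2, p.1) < s)) := by
    rintro s ⟨ha, hb⟩
    obtain ⟨W', -, -, -, -, hD⟩ := h5
    obtain ⟨x, hx⟩ := h2 s (W' 0) (hD 0) (fun p : T × F => f (p.2, p.1) < s)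
      (sub_self _ _ _ _)
      (sec_restrict (Set.subset_univ _) (fun _ _ _ => Iff.rfl) ha)
      (sec_restrict (Set.subset_univ _) (fun _ _ _ => Iff.rfl) hb)
    exact h4 s x (W' 0) _ hx
  have hex : ∃ s, HasSec GF GT Set.univ (fun p : F × T => f p < s) := by
    obtain ⟨u0⟩ := hGF.nonempty
    classical
    refine ⟨Finset.univ.sup f + 1, fun _ u => if u = u0 then 1 else 0, ⟨?_, ?_, ?_⟩⟩
    · intro v _ u hu
      exact absurd (Nat.lt_succ_of_le (Finset.le_sup (f := f) (Finset.mem_univ (u, v)))) hu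
    · intro v _
      simp
    · intro v _ v' _ hadj φ hφ
      simp only [ite_mul, one_mul, zero_mul, Finset.sum_ite_eq', Finset.mem_univ, if_true]
      exact hφ (u0, v) (u0, v') (Or.inl rfl) (Or.inr rfl) ⟨RA.refl _ _, Or.inr hadj⟩
        (Nat.lt_succ_of_le (Finset.le_sup (f := f) (Finset.mem_univ (u0, v))))
        (Nat.lt_succ_of_le (Finset.le_sup (f := f) (Finset.mem_univ (u0, v'))))
  have h0 : ¬ HasSec GF GT Set.univ (fun p : F × T => f p < 0) := by
    rintro ⟨z, hz⟩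
    obtain ⟨v⟩ := hGT.nonempty
    have e := hz.one v (Set.mem_univ _)
    rw [Finset.sum_eq_zero (fun u _ => hz.supp v (Set.mem_univ _) u (Nat.not_lt_zero _))] at e
    exact absurd e (by decide)
  obtain ⟨s, hs0, hs1⟩ : ∃ s, ¬ HasSec GF GT Set.univ (fun p : F × T => f p < s) ∧
      HasSec GF GT Set.univ (fun p : F × T => f p < s + 1) := by
    classical
    have hspec := Nat.find_spec hex
    have hne : Nat.find hex ≠ 0 := by
      intro h
      rw [h] at hspec
      exact h0 hspec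
    obtain ⟨k, hk⟩ := Nat.exists_eq_succ_of_ne_zero hne
    refine ⟨k, Nat.find_min hex (by omega), ?_⟩
    rw [hk] at hspec
    exact hspec
  have hx1 : HasSec GT GF Set.univ (fun p : T × F => ¬ f (p.2, p.1) < s) :=
    (hHEX F T GF GT hGF hGT (fun p => f p < s)).resolve_left hs0
  have hx2 : ¬ HasSec GT GF Set.univ (fun p : T × F => f (p.2, p.1) < s) :=
    fun h => step1 s ⟨h, hx1⟩
  have hx3 : HasSec GF GT Set.univ (fun p : F × T => ¬ f p < s) := by
    refine (hHEX F T GF GT hGF hGT (fun p => ¬ f p < s)).resolve_right (fun h => hx2 ?_)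
    exact sec_restrict (Set.subset_univ _) (fun _ _ _ => not_not) h
  obtain ⟨W', -, hdis, -, -, hD⟩ := h6
  obtain ⟨i, hi⟩ : ∃ i : Fin 3, ∀ p : F × T, p.2 ∈ W' i → f p ≠ s := by
    by_cases hw : ∃ p : F × T, f p = s ∧ p.2 ∈ W' 0
    · obtain ⟨p0, hp0, hp0'⟩ := hw
      refine ⟨1, fun p hp hps => ?_⟩
      have : p = p0 := hf (hps.trans hp0.symm)
      subst this
      exact Set.disjoint_left.1 (hdis 0 1 (by decide)) hp0' hp
    · exact ⟨0, fun p hp hps => hw ⟨p, hps, hp⟩⟩
  have ha : HasSec GF GT (W' i) (fun p : F × T => f p < s) := by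
    refine sec_restrict (Set.subset_univ _) (fun v hv u => ?_) hs1
    have := hi (u, v) hv
    constructor
    · intro h; omega
    · intro h; omega
  have hb : HasSec GF GT (W' i) (fun p : F × T => ¬ f p < s) :=
    sec_restrict (Set.subset_univ _) (fun _ _ _ => Iff.rfl) hx3
  obtain ⟨x, hx⟩ := h1 s (W' i) (hD i) (fun p => f p < s) (sub_self _ _ _ _) ha hb
  exact h3 s x (W' i) _ hx

end Pool.Agent.W683.SN
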