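import Pool.Agent.W606.SN.Stm

set_option autoImplicit false

namespace Pool.Agent.W683.SN

open Pool.Agent.W606.SN

theorem om_symm {F T : Type} (L A : F × T → Prop) (pos : F × T → ℕ) (y : ℕ) (p q : F × T) :
    om L A pos y p q = om L A pos y q p := by
  unfold om
  have : ((A p ↔ ¬ A q) ∧ ((L p ∧ pos p < y) ∨ (L q ∧ pos q < y))) ↔
      ((A q ↔ ¬ A p) ∧ ((L q ∧ pos q < y) ∨ (L p ∧ pos p < y))) := by tauto
  split_ifs with h1 h2 h2
  · rfl
  · exact absurd (this.1 h1) h2
  · exact absurd (this.2 h2) h1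
  · rfl

theorem om_same {F T : Type} (L A : F × T → Prop) (pos : F × T → ℕ) (y : ℕ) (p q : F × T)
    (h : A p ↔ A q) : om L A pos y p q = 0 := by
  unfold om
  rw [if_neg]
  tauto

theorem om_core {F T : Type} {GF : SimpleGraph F} {GT : SimpleGraph T} {W : Set T}
    {L A : F × T → Prop} {pos : F × T → ℕ} {y : ℕ} (hS : Sub GF GT W L A)
    (hT : ∀ t, ¬ Tri GF GT W L A pos y t) (a a' c : F × T) (ha : a.2 ∈ W) (ha' : a'.2 ∈ W)
    (hc : c.2 ∈ W) (h1 : RP GF GT a a') (h2 : RP GF GT a c) (h3 : RP GF GT a' c)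
    (hA : A a ↔ A a') (hB : A a ↔ ¬ A c) : om L A pos y a c = om L A pos y a' c := by
  have hB' : A a' ↔ ¬ A c := hA.symm.trans hB
  have e1 : L a ↔ ¬ L c := by
    by_cases h : A a
    · exact hS a c ha hc h2 h (hB.1 h)
    · have hc' : A c := by by_contra h'; exact h (hB.2 h')
      have := hS c a hc ha h2.symm hc' h
      tauto
  have e2 : L a' ↔ ¬ L c := by
    by_cases h : A a'
    · exact hS a' c ha' hc h3 h (hB'.1 h)
    · have hc' : A c := by by_contra h'; exact h (hB'.2 h')
      have := hS c a' hc ha' h3.symm hc' h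
      tauto
  have e3 : ((L a ∧ pos a < y) ∨ (L c ∧ pos c < y)) ↔ ((L a' ∧ pos a' < y) ∨ (L c ∧ pos c < y)) := by
    by_cases hLc : L c
    · have : ¬ L a := fun h => (e1.1 h) hLc
      have : ¬ L a' := fun h => (e2.1 h) hLc
      tauto
    · have la : L a := e1.2 hLc
      have la' : L a' := e2.2 hLc
      have f1 : ¬ (pos a < y ∧ y ≤ pos a') := fun h =>
        hT (a, a', c) ⟨ha, ha', hc, h1, h2, h3, la, la', hLc, hA, hB, h.1, h.2⟩
      have f2 : ¬ (pos a' < y ∧ y ≤ pos a) := fun h =>
        hT (a', a, c) ⟨ha', ha, hc, h1.symm, h3, h2, la', la, hLc, hA.symm, hB', h.1, h.2⟩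
      constructor
      · rintro (h | h)
        · left
          refine ⟨la', ?_⟩
          by_contra h'
          exact f1 ⟨h.2, by omega⟩
        · exact Or.inr h
      · rintro (h | h)
        · left
          refine ⟨la, ?_⟩
          by_contra h'
          exact f2 ⟨h.2, by omega⟩
        · exact Or.inr h
  unfold om
  have : ((A a ↔ ¬ A c) ∧ ((L a ∧ pos a < y) ∨ (L c ∧ pos c < y))) ↔
      ((A a' ↔ ¬ A c) ∧ ((L a' ∧ pos a' < y) ∨ (L c ∧ pos c < y))) := by
    rw [e3]
    exact and_congr_left (fun _ => ⟨fun _ => hB', fun _ => hB⟩)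
  split_ifs with h1 h2 h2
  · rfl
  · exact absurd (this.1 h1) h2
  · exact absurd (this.2 h2) h1
  · rfl

theorem zz (x : ZMod 2) : x + x = 0 := CharTwo.add_self_eq_zero x

theorem omc : S_OMC := by
  intro F T GF GT W L A pos y hS hT p q r hp hq hr hpq hqr hpr
  by_cases h1 : A p ↔ A q
  · rw [om_same L A pos y p q h1, zero_add]
    by_cases h2 : A q ↔ A r
    · rw [om_same L A pos y q r h2, om_same L A pos y p r (h1.trans h2)]
    · have h3 : A q ↔ ¬ A r := by tauto
      exact om_core hS hT q p r hq hp hr hpq.symm hqr hpr h1.symm h3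
  · by_cases h2 : A q ↔ A r
    · rw [om_same L A pos y q r h2, add_zero, om_symm L A pos y p q, om_symm L A pos y p r]
      exact om_core hS hT q r p hq hr hp hqr hpq.symm hpr.symm h2 (by tauto)
    · have h3 : A p ↔ A r := by tauto
      rw [om_same L A pos y p r h3, om_symm L A pos y q r,
        om_core hS hT p r q hp hr hq hpr hpq hqr.symm h3 (by tauto), zz]

theorem par1 : S_PAR1 := by
  intro F T _ GF hP L A pos y z z' v
  obtain ⟨k, hk⟩ := hP (fun u u' => om L A pos y (u, v) (u', v)) (fun a b => om_symm _ _ _ _ _ _)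
  exact ⟨_, k, hk, rfl⟩

theorem conn_const {F : Type} {GF : SimpleGraph F} (hF : GF.Connected) (h : F → ZMod 2)
    (hh : ∀ u u', GF.Adj u u' → h u + h u' = 0) (u u' : F) : h u = h u' := by
  obtain ⟨w⟩ := hF.preconnected u u'
  induction w with
  | nil => rfl
  | cons hadj _ ih =>
    rw [← ih]
    have := hh _ _ hadj
    exact CharTwo.add_eq_zero.1 this

theorem par2 : S_PAR2 := by
  intro F T _ GF hF L A pos y z z' v hz hz' c c' hc hc'
  obtain ⟨g, hg, hgc⟩ := hc
  obtain ⟨g', hg', hgc'⟩ := hc'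
  obtain ⟨u0⟩ := hF.nonempty
  have hconst : ∀ u, g u + g' u = g u0 + g' u0 := by
    intro u
    refine conn_const hF (fun u => g u + g' u) (fun a b hab => ?_) u u0
    have h1 := hg a b hab
    have h2 := hg' a b hab
    have e : g a + g' a + (g b + g' b) = (g a + g b) + (g' a + g' b) := by ring
    rw [e, h1, h2, zz]
  have hs : c + c' = 0 := by
    rw [← hgc, ← hgc', ← Finset.sum_add_distrib]
    have e : ∀ u, (z v u + z' v u) * g u + (z v u + z' v u) * g' u
        = z v u * (g u0 + g' u0) + z' v u * (g u0 + g' u0) := by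
      intro u
      rw [← hconst u]; ring
    rw [Finset.sum_congr rfl (fun u _ => e u), Finset.sum_add_distrib, ← Finset.sum_mul,
      ← Finset.sum_mul, hz, hz', zz]
  exact CharTwo.add_eq_zero.1 hs

theorem par0 : S_PAR0 := by
  intro F T _ GF hF L A pos z z' v hz hz' c hc
  obtain ⟨g, hg, hgc⟩ := hc
  obtain ⟨u0⟩ := hF.nonempty
  have hconst : ∀ u, g u = g u0 := by
    intro u
    refine conn_const hF g (fun a b hab => ?_) u u0
    rw [hg a b hab]
    unfold om
    rw [if_neg]
    simp
  rw [← hgc]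
  have e : ∀ u, (z v u + z' v u) * g u = z v u * g u0 + z' v u * g u0 := by
    intro u
    rw [hconst u]; ring
  rw [Finset.sum_congr rfl (fun u _ => e u), Finset.sum_add_distrib, ← Finset.sum_mul,
    ← Finset.sum_mul, hz, hz', zz]

open Classical in
theorem parN : S_PARN := by
  intro F T _ GF GT hF W L A pos y z z' hS hL hz hz' v hv c hc
  obtain ⟨g, hg, hgc⟩ := hc
  obtain ⟨u0⟩ := hF.nonempty
  set a : F → ZMod 2 := fun u => if A (u, v) then 1 else 0 with ha
  have hom : ∀ u u', GF.Adj u u' → om L A pos y (u, v) (u', v) = a u + a u' := by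
    intro u u' hadj
    have hr : RP GF GT (u, v) (u', v) := ⟨Or.inr hadj, RA.refl _ _⟩
    by_cases h1 : A (u, v) <;> by_cases h2 : A (u', v)
    · rw [om_same L A pos y _ _ (by tauto)]
      simp only [ha, h1, h2, if_true]
      rw [zz]
    · have hs := hS (u, v) (u', v) hv hv hr h1 h2
      unfold om
      rw [if_pos]
      · simp [ha, h1, h2]
      · refine ⟨by tauto, ?_⟩
        by_cases hl : L (u, v)
        · exact Or.inl ⟨hl, hL _ hl⟩
        · have hl' : L (u', v) := by tauto
          exact Or.inr ⟨hl', hL _ hl'⟩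
    · have hs := hS (u', v) (u, v) hv hv hr.symm h2 h1
      unfold om
      rw [if_pos]
      · simp [ha, h1, h2]
      · refine ⟨by tauto, ?_⟩
        by_cases hl : L (u, v)
        · exact Or.inl ⟨hl, hL _ hl⟩
        · have hl' : L (u', v) := by tauto
          exact Or.inr ⟨hl', hL _ hl'⟩
    · rw [om_same L A pos y _ _ (by tauto)]
      simp [ha, h1, h2]
  have hconst : ∀ u, g u + a u = g u0 + a u0 := by
    intro u
    refine conn_const hF (fun u => g u + a u) (fun x x' hxx => ?_) u u0
    have h1 := hg x x' hxx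
    rw [hom x x' hxx] at h1
    have e : g x + a x + (g x' + a x') = (g x + g x') + (a x + a x') := by ring
    rw [e, h1, zz]
  have hg' : ∀ u, g u = (g u0 + a u0) + a u := by
    intro u
    rw [← hconst u, add_assoc, zz, add_zero]
  rw [← hgc]
  have e : ∀ u, (z v u + z' v u) * g u = z v u * (g u0 + a u0) + z' v u * (g u0 + a u0)
      + z v u * a u + z' v u * a u := by
    intro u
    rw [hg' u]; ring
  have e1 : ∀ u, z v u * a u = z v u := by
    intro u
    by_cases h : A (u, v)
    · simp [ha, h]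
    · rw [hz.supp v hv u h]; ring
  have e2 : ∀ u, z' v u * a u = 0 := by
    intro u
    by_cases h : A (u, v)
    · rw [hz'.supp v hv u (fun h' => h' h)]; ring
    · simp [ha, h]
  rw [Finset.sum_congr rfl (fun u _ => e u), Finset.sum_add_distrib, Finset.sum_add_distrib,
    Finset.sum_add_distrib, ← Finset.sum_mul, ← Finset.sum_mul, hz.one v hv, hz'.one v hv,
    Finset.sum_congr rfl (fun u _ => e1 u), Finset.sum_congr rfl (fun u _ => e2 u), hz.one v hv,
    zz]
  simp

end Pool.Agent.W683.SN
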